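import Pool.Agent.helper3.BP.M2

/-!
# Modules M3, M4, M7b: upper bound for the planted incidences, a clean input, many bad lines
-/

namespace Pool.Agent.helper3.BP

open Finset Classical Pool.Agent.helper24.BP

noncomputable section

theorem card_points {q : ℕ} [Fact q.Prime] (u : Pt q) :
    (univ.filter fun w : Pt q => inc u w).card = q := by
  have h := sum_inc u
  rw [Finset.sum_boole] at h
  exact_mod_cast h

theorem card_lines {q : ℕ} [Fact q.Prime] (w : Pt q) :
    (univ.filter fun u : Pt q => inc u w).card = q := by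
  have h : ∑ u : Pt q, (if inc u w then (1 : ℝ) else 0) = q := by
    rw [Fintype.sum_prod_type]
    have h : ∀ x : ZMod q, ∑ y : ZMod q, (if inc (x, y) w then (1 : ℝ) else 0) = 1 := by
      intro x
      refine sum_one (w.2 - x * w.1) _ fun y => ?_
      unfold inc
      simp only
      constructor
      · intro h; rw [h]; ring
      · intro h; rw [h]; ring
    simp only [h, Finset.sum_const, Finset.card_univ, ZMod.card, nsmul_eq_mul, mul_one]
  rw [Finset.sum_boole] at h
  exact_mod_cast h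

/-- few elements of a dense set satisfy `s` constraints, each with `q` solutions -/
theorem few {N q : ℕ} [Fact q.Prime] {ξ : ℕ} {F : Finset (Fin N)} {a : Finset (Asg N q)}
    (ha : Dense ξ F a) {s : ℕ} (e : Fin s → Fin N) (he : Function.Injective e)
    (hF : ∀ i, e i ∉ F) (A : Fin s → Finset (Pt q)) (hA : ∀ i, (A i).card ≤ q) :
    (a.filter fun x => ∀ i, x (e i) ∈ A i).card * q ^ s ≤ ξ ^ s * a.card := by
  have hq : 0 < q := (Fact.out : q.Prime).pos
  have hsub : (a.filter fun x => ∀ i, x (e i) ∈ A i) ⊆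
      (Fintype.piFinset A).biUnion fun u => a.filter fun x => (fun i => x (e i)) = u := by
    intro x hx
    rw [Finset.mem_filter] at hx
    rw [Finset.mem_biUnion]
    exact ⟨fun i => x (e i), Fintype.mem_piFinset.mpr hx.2, Finset.mem_filter.mpr ⟨hx.1, rfl⟩⟩
  have hpi : (Fintype.piFinset A).card ≤ q ^ s := by
    rw [Fintype.card_piFinset]
    calc ∏ i, (A i).card ≤ ∏ _i : Fin s, q := Finset.prod_le_prod' fun i _ => hA i
      _ = q ^ s := by simp
  have h1 : (a.filter fun x => ∀ i, x (e i) ∈ A i).card * (q ^ 2) ^ s ≤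
      q ^ s * (ξ ^ s * a.card) := by
    calc (a.filter fun x => ∀ i, x (e i) ∈ A i).card * (q ^ 2) ^ s
        ≤ (∑ u ∈ Fintype.piFinset A, (a.filter fun x => (fun i => x (e i)) = u).card) *
          (q ^ 2) ^ s :=
          Nat.mul_le_mul_right _ ((Finset.card_le_card hsub).trans Finset.card_biUnion_le)
      _ = ∑ u ∈ Fintype.piFinset A, (a.filter fun x => (fun i => x (e i)) = u).card *
          (q ^ 2) ^ s := by rw [Finset.sum_mul]
      _ ≤ ∑ _u ∈ Fintype.piFinset A, ξ ^ s * a.card :=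
          Finset.sum_le_sum fun u _ => fiber_bound ha e he hF u
      _ = (Fintype.piFinset A).card * (ξ ^ s * a.card) := by
          rw [Finset.sum_const, smul_eq_mul]
      _ ≤ q ^ s * (ξ ^ s * a.card) := Nat.mul_le_mul_right _ hpi
  have h2 : (q ^ 2) ^ s = q ^ s * q ^ s := by
    rw [← pow_mul, two_mul, pow_add]
  rw [h2] at h1
  refine Nat.le_of_mul_le_mul_left ?_ (pow_pos hq s)
  calc q ^ s * ((a.filter fun x => ∀ i, x (e i) ∈ A i).card * q ^ s)
      = (a.filter fun x => ∀ i, x (e i) ∈ A i).card * (q ^ s * q ^ s) := by ring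
    _ ≤ _ := h1

/-- the same, with the constraints indexed by a finset of pairs -/
theorem few_set {N q : ℕ} [Fact q.Prime] {ξ : ℕ} {F : Finset (Fin N)} {a : Finset (Asg N q)}
    (ha : Dense ξ F a) (S : Finset (Pair N)) (e : Pair N → Fin N)
    (he : ∀ p ∈ S, ∀ p' ∈ S, e p = e p' → p = p') (hF : ∀ p ∈ S, e p ∉ F)
    (A : Pair N → Finset (Pt q)) (hA : ∀ p ∈ S, (A p).card ≤ q) :
    (a.filter fun x => ∀ p ∈ S, x (e p) ∈ A p).card * q ^ S.card ≤ ξ ^ S.card * a.card := by
  have h := few ha (fun i : Fin S.card => e (S.equivFin.symm i : Pair N)) (by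
    intro i j hij
    exact S.equivFin.symm.injective (Subtype.ext
      (he _ (S.equivFin.symm i).2 _ (S.equivFin.symm j).2 hij)))
    (fun i => hF _ (S.equivFin.symm i).2) (fun i => A (S.equivFin.symm i : Pair N))
    (fun i => hA _ (S.equivFin.symm i).2)
  refine le_trans (Nat.mul_le_mul_right _ (Finset.card_le_card ?_)) h
  intro x hx
  rw [Finset.mem_filter] at hx ⊢
  exact ⟨hx.1, fun i => hx.2 _ (S.equivFin.symm i).2⟩

/-- **M3** -/
theorem inc_upper {N q : ℕ} [Fact q.Prime] {ξ s : ℕ} {FU FV : Finset (Fin N)}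
    {a b : Finset (Asg N q)} (ha : Dense ξ FU a) (hb : Dense ξ FV b)
    {T : Finset (Pair N)} (hT : T ∈ Mt (univ : Finset (Fin N)) univ s)
    (hfree : ∀ p ∈ T, p.1 ∉ FU ∨ p.2 ∉ FV) :
    ((a ×ˢ b).filter (IncT T)).card * q ^ s ≤ ξ ^ s * (a.card * b.card) := by
  unfold Mt at hT
  rw [Finset.mem_filter, Finset.mem_powersetCard] at hT
  obtain ⟨⟨_, hcard⟩, hinj1, hinj2⟩ := hT
  obtain ⟨x0, hx0⟩ := ha.ne
  set T1 := T.filter fun p => p.1 ∉ FU with hT1
  set T2 := T.filter fun p => ¬ p.1 ∉ FU with hT2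
  have hs : T1.card + T2.card = s := by
    rw [← hcard]
    exact Finset.card_filter_add_card_filter_not (s := T) (fun p => p.1 ∉ FU)
  have hT1T : ∀ p ∈ T1, p ∈ T := fun p hp => (Finset.mem_filter.mp hp).1
  have hT2T : ∀ p ∈ T2, p ∈ T := fun p hp => (Finset.mem_filter.mp hp).1
  set b2 := b.filter fun y => ∀ p ∈ T2, y p.2 ∈ univ.filter fun w => inc (x0 p.1) w with hb2
  have hb2c : b2.card * q ^ T2.card ≤ ξ ^ T2.card * b.card := by
    refine few_set hb T2 (fun p => p.2)
      (fun p hp p' hp' h => hinj2 p (hT2T p hp) p' (hT2T p' hp') h) ?_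
      (fun p => univ.filter fun w => inc (x0 p.1) w) (fun p _ => (card_points _).le)
    intro p hp
    have h1 := hfree p (hT2T p hp)
    have h2 := (Finset.mem_filter.mp hp).2
    rcases h1 with h1 | h1
    · exact absurd h1 h2
    · exact h1
  have hx : ∀ y : Asg N q, (a.filter fun x => ∀ p ∈ T1, x p.1 ∈
      univ.filter fun u => inc u (y p.2)).card * q ^ T1.card ≤ ξ ^ T1.card * a.card := by
    intro y
    exact few_set ha T1 (fun p => p.1)
      (fun p hp p' hp' h => hinj1 p (hT1T p hp) p' (hT1T p' hp') h)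
      (fun p hp => (Finset.mem_filter.mp hp).2)
      (fun p => univ.filter fun u => inc u (y p.2)) (fun p _ => (card_lines _).le)
  have hsub : (a ×ˢ b).filter (IncT T) ⊆ b2.biUnion fun y =>
      (a.filter fun x => ∀ p ∈ T1, x p.1 ∈ univ.filter fun u => inc u (y p.2)).map
        ⟨fun x => (x, y), fun x x' h => (Prod.mk.inj h).1⟩ := by
    rintro ⟨x, y⟩ hz
    rw [Finset.mem_filter, Finset.mem_product] at hz
    obtain ⟨⟨hxa, hyb⟩, hinc⟩ := hz
    rw [Finset.mem_biUnion]
    refine ⟨y, ?_, ?_⟩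
    · rw [hb2, Finset.mem_filter]
      refine ⟨hyb, fun p hp => ?_⟩
      rw [Finset.mem_filter]
      refine ⟨Finset.mem_univ _, ?_⟩
      have h1 := hinc p (hT2T p hp)
      have h2 : p.1 ∈ FU := not_not.mp (Finset.mem_filter.mp hp).2
      rw [← ha.agree x hxa x0 hx0 p.1 h2]
      exact h1
    · rw [Finset.mem_map]
      refine ⟨x, ?_, rfl⟩
      rw [Finset.mem_filter]
      refine ⟨hxa, fun p hp => ?_⟩
      rw [Finset.mem_filter]
      exact ⟨Finset.mem_univ _, hinc p (hT1T p hp)⟩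
  have hle : ((a ×ˢ b).filter (IncT T)).card ≤ ∑ y ∈ b2,
      (a.filter fun x => ∀ p ∈ T1, x p.1 ∈ univ.filter fun u => inc u (y p.2)).card := by
    refine (Finset.card_le_card hsub).trans (Finset.card_biUnion_le.trans ?_)
    refine Finset.sum_le_sum fun y _ => ?_
    rw [Finset.card_map]
  rw [← hs, pow_add, pow_add]
  calc ((a ×ˢ b).filter (IncT T)).card * (q ^ T1.card * q ^ T2.card)
      ≤ (∑ y ∈ b2, (a.filter fun x => ∀ p ∈ T1, x p.1 ∈
          univ.filter fun u => inc u (y p.2)).card) * (q ^ T1.card * q ^ T2.card) :=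
        Nat.mul_le_mul_right _ hle
    _ = (∑ y ∈ b2, (a.filter fun x => ∀ p ∈ T1, x p.1 ∈
          univ.filter fun u => inc u (y p.2)).card * q ^ T1.card) * q ^ T2.card := by
        rw [← mul_assoc, Finset.sum_mul]
    _ ≤ (∑ _y ∈ b2, ξ ^ T1.card * a.card) * q ^ T2.card :=
        Nat.mul_le_mul_right _ (Finset.sum_le_sum fun y _ => hx y)
    _ = (ξ ^ T1.card * a.card) * (b2.card * q ^ T2.card) := by
        rw [Finset.sum_const, smul_eq_mul]; ring
    _ ≤ (ξ ^ T1.card * a.card) * (ξ ^ T2.card * b.card) := Nat.mul_le_mul_left _ hb2c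
    _ = ξ ^ T1.card * ξ ^ T2.card * (a.card * b.card) := by ring

theorem single_mem_Mt {N : ℕ} (p : Pair N) : {p} ∈ Mt (univ : Finset (Fin N)) univ 1 := by
  unfold Mt
  rw [Finset.mem_filter, Finset.mem_powersetCard]
  refine ⟨⟨?_, Finset.card_singleton p⟩, ?_, ?_⟩
  · intro x _
    exact Finset.mem_product.mpr ⟨Finset.mem_univ _, Finset.mem_univ _⟩
  · intro x hx y hy _
    rw [Finset.mem_singleton.mp hx, Finset.mem_singleton.mp hy]
  · intro x hx y hy _
    rw [Finset.mem_singleton.mp hx, Finset.mem_singleton.mp hy]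

/-- **M4** (from M3) -/
theorem exists_clean {N q : ℕ} [Fact q.Prime] {ξ : ℕ} {FU FV : Finset (Fin N)}
    {a b : Finset (Asg N q)} (ha : Dense ξ FU a) (hb : Dense ξ FV b) (hq : N ^ 2 * ξ < q) :
    ∃ z ∈ a ×ˢ b, ∀ i j, inc (z.1 i) (z.2 j) → i ∈ FU ∧ j ∈ FV := by
  by_contra hcon
  push Not at hcon
  set P : Finset (Pair N) := univ.filter fun p => p.1 ∉ FU ∨ p.2 ∉ FV with hP
  have hsub : a ×ˢ b ⊆ P.biUnion fun p => (a ×ˢ b).filter (IncT {p}) := by
    intro z hz
    obtain ⟨i, j, hinc, hij⟩ := hcon z hz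
    rw [Finset.mem_biUnion]
    refine ⟨(i, j), ?_, ?_⟩
    · rw [hP, Finset.mem_filter]
      refine ⟨Finset.mem_univ _, ?_⟩
      by_cases hi : i ∈ FU
      · exact Or.inr (hij hi)
      · exact Or.inl hi
    · rw [Finset.mem_filter]
      refine ⟨hz, fun p hp => ?_⟩
      rw [Finset.mem_singleton] at hp
      rw [hp]
      exact hinc
  have hPc : P.card ≤ N ^ 2 := by
    refine (Finset.card_le_univ P).trans ?_
    rw [Fintype.card_prod, Fintype.card_fin, sq]
  have h1 : (a ×ˢ b).card * q ≤ N ^ 2 * (ξ * (a.card * b.card)) := by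
    calc (a ×ˢ b).card * q ≤ (∑ p ∈ P, ((a ×ˢ b).filter (IncT {p})).card) * q :=
          Nat.mul_le_mul_right _ ((Finset.card_le_card hsub).trans Finset.card_biUnion_le)
      _ = ∑ p ∈ P, ((a ×ˢ b).filter (IncT {p})).card * q := by rw [Finset.sum_mul]
      _ ≤ ∑ _p ∈ P, ξ * (a.card * b.card) := by
          refine Finset.sum_le_sum fun p hp => ?_
          have h := inc_upper ha hb (single_mem_Mt p) (fun p' hp' => by
            rw [Finset.mem_singleton] at hp'
            rw [hp']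
            exact (Finset.mem_filter.mp hp).2)
          rwa [pow_one, pow_one] at h
      _ = P.card * (ξ * (a.card * b.card)) := by rw [Finset.sum_const, smul_eq_mul]
      _ ≤ N ^ 2 * (ξ * (a.card * b.card)) := Nat.mul_le_mul_right _ hPc
  rw [Finset.card_product] at h1
  have hpos : 0 < a.card * b.card := Nat.mul_pos (Finset.card_pos.mpr ha.ne)
    (Finset.card_pos.mpr hb.ne)
  have h2 : N ^ 2 * ξ * (a.card * b.card) < q * (a.card * b.card) :=
    Nat.mul_lt_mul_of_pos_right hq hpos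
  have h3 : q * (a.card * b.card) ≤ N ^ 2 * ξ * (a.card * b.card) := by
    calc q * (a.card * b.card) = a.card * b.card * q := by ring
      _ ≤ N ^ 2 * (ξ * (a.card * b.card)) := h1
      _ = _ := by ring
  omega

/-- **M7b** (from M4) -/
theorem bad_of_yes {N q : ℕ} [Fact q.Prime] {ξ t : ℕ} {FU FV : Finset (Fin N)}
    {a b : Finset (Asg N q)} (ha : Dense ξ FU a) (hb : Dense ξ FV b) (hq : N ^ 2 * ξ < q)
    (hyes : ∀ z ∈ a ×ˢ b, Yes t z) {T : Finset (Pair N)}
    (hT : T ∈ Mt (univ : Finset (Fin N)) univ t) {z : Inp N q} (hz : z ∈ a ×ˢ b) :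
    (T.filter fun p => p.1 ∉ FU ∨ p.2 ∉ FV).card ≤ (bad T z).card := by
  unfold Mt at hT
  rw [Finset.mem_filter, Finset.mem_powersetCard] at hT
  obtain ⟨⟨_, hcard⟩, hinj1, _⟩ := hT
  obtain ⟨z0, hz0, hclean⟩ := exists_clean ha hb hq
  have hy : t ≤ (univ.filter fun i : Fin N => ∃ j : Fin N, inc (z0.1 i) (z0.2 j)).card :=
    hyes z0 hz0
  set L := univ.filter fun i : Fin N => ∃ j : Fin N, inc (z0.1 i) (z0.2 j) with hL
  set Ta := T.filter fun p => ¬ (p.1 ∉ FU ∨ p.2 ∉ FV) with hTa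
  have hsplit : (T.filter fun p => p.1 ∉ FU ∨ p.2 ∉ FV).card + Ta.card = t := by
    rw [← hcard]
    exact Finset.card_filter_add_card_filter_not (s := T) (fun p => p.1 ∉ FU ∨ p.2 ∉ FV)
  rw [Finset.mem_product] at hz hz0
  have hsub : L ⊆ bad T z ∪ Ta.image Prod.fst := by
    intro i hi
    rw [hL, Finset.mem_filter] at hi
    obtain ⟨_, j, hij⟩ := hi
    obtain ⟨hi, hj⟩ := hclean i j hij
    have hinc : inc (z.1 i) (z.2 j) := by
      rw [ha.agree z.1 hz.1 z0.1 hz0.1 i hi, hb.agree z.2 hz.2 z0.2 hz0.2 j hj]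
      exact hij
    rw [Finset.mem_union]
    by_cases hmem : (i, j) ∈ T
    · right
      rw [Finset.mem_image]
      refine ⟨(i, j), ?_, rfl⟩
      rw [hTa, Finset.mem_filter]
      refine ⟨hmem, ?_⟩
      simp only [not_or, not_not]
      exact ⟨hi, hj⟩
    · left
      unfold bad
      rw [Finset.mem_filter]
      exact ⟨Finset.mem_univ _, j, hmem, hinc⟩
  have h1 : L.card ≤ (bad T z).card + Ta.card :=
    (Finset.card_le_card hsub).trans ((Finset.card_union_le _ _).trans
      (Nat.add_le_add_left Finset.card_image_le _))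
  omega

end

end Pool.Agent.helper3.BP
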