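import Pool.Agent.helper24.BP.Defs

/-!
# Module M2: spectral lower bound for the planted incidences between two dense sets
-/

namespace Pool.Agent.helper3.BP

open Finset Classical Pool.Agent.helper24.BP

noncomputable section

/-- the centred incidence kernel -/
def ker {q : ℕ} (u w : Pt q) : ℝ := (if inc u w then 1 else 0) - 1 / (q : ℝ)

theorem sum_one {α : Type*} [Fintype α] (c : α) (P : α → Prop) [DecidablePred P]
    (hP : ∀ y, P y ↔ y = c) : ∑ y, (if P y then (1 : ℝ) else 0) = 1 := by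
  rw [Finset.sum_eq_single c]
  · rw [if_pos ((hP c).mpr rfl)]
  · intro y _ hy
    rw [if_neg fun h => hy ((hP y).mp h)]
  · intro h
    exact absurd (Finset.mem_univ c) h

theorem sum_inc {q : ℕ} [Fact q.Prime] (u : Pt q) :
    ∑ w : Pt q, (if inc u w then (1 : ℝ) else 0) = q := by
  rw [Fintype.sum_prod_type]
  have h : ∀ x : ZMod q, ∑ y : ZMod q, (if inc u (x, y) then (1 : ℝ) else 0) = 1 := fun x =>
    sum_one (u.1 * x + u.2) _ fun y => Iff.rfl
  simp only [h, Finset.sum_const, Finset.card_univ, ZMod.card, nsmul_eq_mul, mul_one]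

theorem sum_inc_inc {q : ℕ} [Fact q.Prime] (u u' : Pt q) :
    ∑ w : Pt q, (if inc u w then (1 : ℝ) else 0) * (if inc u' w then (1 : ℝ) else 0) =
      1 + (q : ℝ) * (if u = u' then 1 else 0) - (if u.1 = u'.1 then 1 else 0) := by
  rw [Fintype.sum_prod_type]
  have h1 : ∀ x : ZMod q, ∑ y : ZMod q, (if inc u (x, y) then (1 : ℝ) else 0) *
      (if inc u' (x, y) then (1 : ℝ) else 0) =
      if (u.1 - u'.1) * x = u'.2 - u.2 then 1 else 0 := by
    intro x
    by_cases hx : (u.1 - u'.1) * x = u'.2 - u.2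
    · rw [if_pos hx]
      have : ∀ y : ZMod q, (if inc u (x, y) then (1 : ℝ) else 0) *
          (if inc u' (x, y) then (1 : ℝ) else 0) = if inc u (x, y) then (1 : ℝ) else 0 := by
        intro y
        by_cases hy : inc u (x, y)
        · have hy' : inc u' (x, y) := by
            unfold inc at hy ⊢
            simp only at hy ⊢
            rw [hy]
            linear_combination hx
          rw [if_pos hy, if_pos hy', mul_one]
        · rw [if_neg hy, zero_mul]
      rw [Finset.sum_congr rfl fun y _ => this y]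
      exact sum_one (u.1 * x + u.2) _ fun y => Iff.rfl
    · rw [if_neg hx]
      refine Finset.sum_eq_zero fun y _ => ?_
      by_cases hy : inc u (x, y)
      · have hy' : ¬ inc u' (x, y) := by
          intro h
          apply hx
          unfold inc at hy h
          simp only at hy h
          linear_combination h - hy
        rw [if_neg hy', mul_zero]
      · rw [if_neg hy, zero_mul]
  rw [Finset.sum_congr rfl fun x _ => h1 x]
  by_cases hs : u.1 = u'.1
  · by_cases hb : u.2 = u'.2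
    · have : u = u' := Prod.ext hs hb
      subst this
      have h2 : ∀ x : ZMod q, (u.1 - u.1) * x = u.2 - u.2 := by intro x; ring
      rw [Finset.sum_congr rfl fun x _ => if_pos (h2 x), if_pos rfl, if_pos rfl]
      simp only [Finset.sum_const, Finset.card_univ, ZMod.card, nsmul_eq_mul, mul_one]
      ring
    · have hne : u ≠ u' := fun h => hb (by rw [h])
      have h2 : ∀ x : ZMod q, ¬ (u.1 - u'.1) * x = u'.2 - u.2 := by
        intro x h
        rw [hs, sub_self, zero_mul] at h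
        exact hb (sub_eq_zero.mp h.symm).symm
      rw [Finset.sum_congr rfl fun x _ => if_neg (h2 x), if_neg hne, if_pos hs]
      simp
  · have hne : u ≠ u' := fun h => hs (by rw [h])
    have h2 : ∀ x : ZMod q, ((u.1 - u'.1) * x = u'.2 - u.2) ↔
        x = (u'.2 - u.2) / (u.1 - u'.1) := by
      intro x
      have : u.1 - u'.1 ≠ 0 := sub_ne_zero.mpr hs
      rw [eq_div_iff this, mul_comm]
    rw [sum_one _ _ h2, if_neg hne, if_neg hs]
    ring

/-- the quadratic form of the centred kernel -/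
theorem ker_gram {q : ℕ} [Fact q.Prime] (u u' : Pt q) :
    ∑ w, ker u w * ker u' w =
      (q : ℝ) * (if u = u' then 1 else 0) - (if u.1 = u'.1 then 1 else 0) := by
  have hq : (q : ℝ) ≠ 0 := by
    have := (Fact.out : q.Prime).pos
    positivity
  have h : ∀ w : Pt q, ker u w * ker u' w =
      (if inc u w then (1 : ℝ) else 0) * (if inc u' w then (1 : ℝ) else 0)
        - (1 / (q : ℝ)) * (if inc u w then (1 : ℝ) else 0)
        - (1 / (q : ℝ)) * (if inc u' w then (1 : ℝ) else 0) + (1 / (q : ℝ)) ^ 2 := by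
    intro w; unfold ker; ring
  rw [Finset.sum_congr rfl fun w _ => h w, Finset.sum_add_distrib, Finset.sum_sub_distrib,
    Finset.sum_sub_distrib, ← Finset.mul_sum, ← Finset.mul_sum, sum_inc, sum_inc, sum_inc_inc]
  simp only [Finset.sum_const, Finset.card_univ, Fintype.card_prod, ZMod.card, nsmul_eq_mul]
  push_cast
  field_simp
  ring

theorem ker_form {q : ℕ} [Fact q.Prime] (f : Pt q → ℝ) :
    ∑ w, (∑ u, f u * ker u w) ^ 2 ≤ (q : ℝ) * ∑ u, f u ^ 2 := by
  have h1 : ∑ w, (∑ u, f u * ker u w) ^ 2 =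
      ∑ u, ∑ u', f u * f u' * (∑ w, ker u w * ker u' w) := by
    have : ∀ w, (∑ u, f u * ker u w) ^ 2 =
        ∑ u, ∑ u', f u * f u' * (ker u w * ker u' w) := by
      intro w
      rw [sq, Finset.sum_mul_sum]
      refine Finset.sum_congr rfl fun u _ => Finset.sum_congr rfl fun u' _ => ?_
      ring
    rw [Finset.sum_congr rfl fun w _ => this w, Finset.sum_comm]
    refine Finset.sum_congr rfl fun u _ => ?_
    rw [Finset.sum_comm]
    refine Finset.sum_congr rfl fun u' _ => ?_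
    rw [Finset.mul_sum]
  rw [h1]
  simp only [ker_gram]
  have h2 : ∑ u : Pt q, ∑ u' : Pt q, f u * f u' *
      ((q : ℝ) * (if u = u' then 1 else 0) - (if u.1 = u'.1 then 1 else 0)) =
      (q : ℝ) * ∑ u, f u ^ 2 - ∑ a : ZMod q, (∑ b : ZMod q, f (a, b)) ^ 2 := by
    have e1 : ∀ u u' : Pt q, f u * f u' *
      ((q : ℝ) * (if u = u' then 1 else 0) - (if u.1 = u'.1 then 1 else 0)) =
      (if u = u' then (q : ℝ) * (f u * f u') else 0) -
        (if u.1 = u'.1 then f u * f u' else 0) := by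
      intro u u'
      split_ifs <;> ring
    simp only [e1, Finset.sum_sub_distrib]
    congr 1
    · simp only [Finset.sum_ite_eq, Finset.mem_univ, if_true, Finset.mul_sum]
      refine Finset.sum_congr rfl fun u _ => ?_
      ring
    · rw [Fintype.sum_prod_type]
      refine Finset.sum_congr rfl fun a _ => ?_
      rw [sq, Finset.sum_mul_sum]
      refine Finset.sum_congr rfl fun b _ => ?_
      rw [Fintype.sum_prod_type, Finset.sum_comm]
      refine Finset.sum_congr rfl fun b' _ => ?_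
      simp
  rw [h2]
  have h3 : 0 ≤ ∑ a : ZMod q, (∑ b : ZMod q, f (a, b)) ^ 2 :=
    Finset.sum_nonneg fun a _ => sq_nonneg _
  linarith

theorem sum_cons {W : Type*} [Fintype W] {s : ℕ} (F : (Fin (s + 1) → W) → ℝ) :
    ∑ w, F w = ∑ w0 : W, ∑ w' : Fin s → W, F (Fin.cons w0 w') := by
  rw [← Fintype.sum_prod_type' (f := fun w0 w' => F (Fin.cons w0 w'))]
  exact (Fintype.sum_equiv (Fin.consEquiv fun _ => W) _ _ fun _ => rfl).symm

/-- tensor power -/
theorem tensor {U W : Type*} [Fintype U] [Fintype W] (H : U → W → ℝ) (C : ℝ) (hC : 0 ≤ C)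
    (hH : ∀ f : U → ℝ, ∑ w, (∑ u, f u * H u w) ^ 2 ≤ C * ∑ u, f u ^ 2)
    {s : ℕ} (f : (Fin s → U) → ℝ) :
    ∑ w : Fin s → W, (∑ u : Fin s → U, f u * ∏ i, H (u i) (w i)) ^ 2 ≤
      C ^ s * ∑ u : Fin s → U, f u ^ 2 := by
  induction s with
  | zero => simp
  | succ s ih =>
    rw [sum_cons, sum_cons, Finset.sum_comm]
    have h1 : ∀ (w' : Fin s → W) (w0 : W), (∑ u : Fin (s + 1) → U, f u *
        ∏ i, H (u i) ((Fin.cons w0 w' : Fin (s + 1) → W) i)) =
        ∑ u0 : U, (∑ u' : Fin s → U, f (Fin.cons u0 u') * ∏ i, H (u' i) (w' i)) * H u0 w0 := by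
      intro w' w0
      rw [sum_cons]
      refine Finset.sum_congr rfl fun u0 _ => ?_
      rw [Finset.sum_mul]
      refine Finset.sum_congr rfl fun u' _ => ?_
      rw [Fin.prod_univ_succ]
      simp only [Fin.cons_zero, Fin.cons_succ]
      ring
    calc ∑ w' : Fin s → W, ∑ w0 : W, (∑ u : Fin (s + 1) → U, f u *
          ∏ i, H (u i) ((Fin.cons w0 w' : Fin (s + 1) → W) i)) ^ 2
        = ∑ w' : Fin s → W, ∑ w0 : W, (∑ u0 : U,
          (∑ u' : Fin s → U, f (Fin.cons u0 u') * ∏ i, H (u' i) (w' i)) * H u0 w0) ^ 2 := by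
          simp only [h1]
      _ ≤ ∑ w' : Fin s → W, C * ∑ u0 : U,
          (∑ u' : Fin s → U, f (Fin.cons u0 u') * ∏ i, H (u' i) (w' i)) ^ 2 :=
          Finset.sum_le_sum fun w' _ => hH _
      _ = C * ∑ u0 : U, ∑ w' : Fin s → W,
          (∑ u' : Fin s → U, f (Fin.cons u0 u') * ∏ i, H (u' i) (w' i)) ^ 2 := by
          rw [← Finset.mul_sum, Finset.sum_comm]
      _ ≤ C * ∑ u0 : U, C ^ s * ∑ u' : Fin s → U, f (Fin.cons u0 u') ^ 2 :=
          mul_le_mul_of_nonneg_left (Finset.sum_le_sum fun u0 _ => ih _) hC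
      _ = C ^ (s + 1) * ∑ u0 : U, ∑ u' : Fin s → U, f (Fin.cons u0 u') ^ 2 := by
          rw [← Finset.mul_sum, ← mul_assoc, pow_succ]
          ring

/-- the fibres of a dense set over coordinates outside `F` are small -/
theorem fiber_bound {N q : ℕ} {ξ : ℕ} {F : Finset (Fin N)} {a : Finset (Asg N q)}
    (ha : Dense ξ F a) {s : ℕ} (e : Fin s → Fin N) (he : Function.Injective e)
    (hF : ∀ i, e i ∉ F) (u : Fin s → Pt q) :
    (a.filter fun x => (fun i => x (e i)) = u).card * (q ^ 2) ^ s ≤ ξ ^ s * a.card := by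
  have hK : (univ.image e).card = s := by
    rw [Finset.card_image_of_injective _ he, Finset.card_univ, Fintype.card_fin]
  have h := ha.spread (univ.image e) (by
    rw [Finset.disjoint_left]
    intro j hj
    obtain ⟨i, _, rfl⟩ := Finset.mem_image.mp hj
    exact hF i) (fun j => if h : ∃ i, e i = j then u h.choose else (0, 0))
  rw [hK] at h
  refine le_trans (Nat.mul_le_mul_right _ (Finset.card_le_card ?_)) h
  intro x hx
  rw [Finset.mem_filter] at hx ⊢
  refine ⟨hx.1, fun j hj => ?_⟩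
  obtain ⟨i, _, hi⟩ := Finset.mem_image.mp hj
  have hex : ∃ i, e i = j := ⟨i, hi⟩
  rw [dif_pos hex, ← hx.2]
  simp only
  rw [hex.choose_spec]

theorem sum_sq {N q : ℕ} [Fact q.Prime] {ξ : ℕ} {F : Finset (Fin N)} {a : Finset (Asg N q)}
    (ha : Dense ξ F a) {s : ℕ} (e : Fin s → Fin N) (he : Function.Injective e)
    (hF : ∀ i, e i ∉ F) :
    (∑ u : Fin s → Pt q, ((a.filter fun x => (fun i => x (e i)) = u).card : ℝ) ^ 2) *
      ((q : ℝ) ^ 2) ^ s ≤ (ξ : ℝ) ^ s * (a.card : ℝ) ^ 2 := by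
  have hsum : ∑ u : Fin s → Pt q, ((a.filter fun x => (fun i => x (e i)) = u).card : ℝ) =
      a.card := by
    have := Finset.card_eq_sum_card_fiberwise (s := a) (t := (univ : Finset (Fin s → Pt q)))
      (f := fun x i => x (e i)) (fun x _ => by simp)
    exact_mod_cast this.symm
  rw [Finset.sum_mul]
  calc ∑ u : Fin s → Pt q, ((a.filter fun x => (fun i => x (e i)) = u).card : ℝ) ^ 2 *
        ((q : ℝ) ^ 2) ^ s
      ≤ ∑ u : Fin s → Pt q, ((a.filter fun x => (fun i => x (e i)) = u).card : ℝ) *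
        ((ξ : ℝ) ^ s * a.card) := by
        refine Finset.sum_le_sum fun u _ => ?_
        have h := fiber_bound ha e he hF u
        have h' : ((a.filter fun x => (fun i => x (e i)) = u).card : ℝ) * ((q : ℝ) ^ 2) ^ s ≤
            (ξ : ℝ) ^ s * a.card := by exact_mod_cast h
        rw [sq ((a.filter fun x => (fun i => x (e i)) = u).card : ℝ), mul_assoc]
        exact mul_le_mul_of_nonneg_left h' (Nat.cast_nonneg _)
    _ = (ξ : ℝ) ^ s * (a.card : ℝ) ^ 2 := by
        rw [← Finset.sum_mul, hsum]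
        ring

/-- the contribution of a set `S` of pairs -/
theorem bound_S {N q : ℕ} [Fact q.Prime] {ξ : ℕ} {FU FV : Finset (Fin N)}
    {a b : Finset (Asg N q)} (ha : Dense ξ FU a) (hb : Dense ξ FV b) {s : ℕ}
    (e e' : Fin s → Fin N) (he : Function.Injective e) (he' : Function.Injective e')
    (hF : ∀ i, e i ∉ FU) (hF' : ∀ i, e' i ∉ FV) :
    |∑ x ∈ a, ∑ y ∈ b, ∏ i, ker (x (e i)) (y (e' i))| ≤
      (Real.sqrt q * ξ / (q : ℝ) ^ 2) ^ s * (a.card * b.card) := by
  have hq : (0 : ℝ) < q := by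
    have := (Fact.out : q.Prime).pos
    positivity
  set f : (Fin s → Pt q) → ℝ := fun u => ((a.filter fun x => (fun i => x (e i)) = u).card : ℝ)
    with hf
  set g : (Fin s → Pt q) → ℝ := fun w => ((b.filter fun y => (fun i => y (e' i)) = w).card : ℝ)
    with hg
  have hfib : ∀ (c : Finset (Asg N q)) (d : Fin s → Fin N) (Φ : (Fin s → Pt q) → ℝ),
      ∑ x ∈ c, Φ (fun i => x (d i)) =
      ∑ u : Fin s → Pt q, ((c.filter fun x => (fun i => x (d i)) = u).card : ℝ) * Φ u := by
    intro c d Φ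
    rw [← Finset.sum_fiberwise c (fun x i => x (d i)) (fun x => Φ (fun i => x (d i)))]
    refine Finset.sum_congr rfl fun u _ => ?_
    rw [Finset.sum_congr rfl (g := fun _ => Φ u)
      (fun x hx => by rw [(Finset.mem_filter.mp hx).2]), Finset.sum_const, nsmul_eq_mul]
  have hE : ∑ x ∈ a, ∑ y ∈ b, ∏ i, ker (x (e i)) (y (e' i)) =
      ∑ w : Fin s → Pt q, g w * ∑ u : Fin s → Pt q, f u * ∏ i, ker (u i) (w i) := by
    rw [Finset.sum_comm]
    have h1 : ∀ y : Asg N q, ∑ x ∈ a, ∏ i, ker (x (e i)) (y (e' i)) =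
        ∑ u : Fin s → Pt q, f u * ∏ i, ker (u i) (y (e' i)) := by
      intro y
      exact hfib a e (fun u => ∏ i, ker (u i) (y (e' i)))
    simp only [h1]
    exact hfib b e' (fun w => ∑ u : Fin s → Pt q, f u * ∏ i, ker (u i) (w i))
  have hCS : (∑ w : Fin s → Pt q, g w * ∑ u : Fin s → Pt q, f u * ∏ i, ker (u i) (w i)) ^ 2 ≤
      (∑ w, g w ^ 2) * ∑ w : Fin s → Pt q, (∑ u, f u * ∏ i, ker (u i) (w i)) ^ 2 :=
    Finset.sum_mul_sq_le_sq_mul_sq _ _ _
  have hT := tensor (ker (q := q)) (q : ℝ) hq.le ker_form f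
  have hfa := sum_sq ha e he hF
  have hgb := sum_sq hb e' he' hF'
  have hQ : (0 : ℝ) < ((q : ℝ) ^ 2) ^ s := by positivity
  have hfa' : ∑ u, f u ^ 2 ≤ (ξ : ℝ) ^ s * (a.card : ℝ) ^ 2 / ((q : ℝ) ^ 2) ^ s := by
    rw [le_div_iff₀ hQ]; exact hfa
  have hgb' : ∑ w, g w ^ 2 ≤ (ξ : ℝ) ^ s * (b.card : ℝ) ^ 2 / ((q : ℝ) ^ 2) ^ s := by
    rw [le_div_iff₀ hQ]; exact hgb
  rw [hE]
  refine abs_le_of_sq_le_sq ?_ (by positivity)
  refine hCS.trans ?_
  have hT' : ∑ w : Fin s → Pt q, (∑ u, f u * ∏ i, ker (u i) (w i)) ^ 2 ≤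
      (q : ℝ) ^ s * ((ξ : ℝ) ^ s * (a.card : ℝ) ^ 2 / ((q : ℝ) ^ 2) ^ s) :=
    hT.trans (mul_le_mul_of_nonneg_left hfa' (by positivity))
  refine (mul_le_mul hgb' hT' (Finset.sum_nonneg fun _ _ => sq_nonneg _) (by positivity)).trans
    (le_of_eq ?_)
  have hsq : Real.sqrt q ^ 2 = q := Real.sq_sqrt hq.le
  have : ((Real.sqrt q * ξ / (q : ℝ) ^ 2) ^ s * (a.card * b.card)) ^ 2 =
      ((Real.sqrt q ^ 2) * ξ ^ 2 / ((q : ℝ) ^ 2) ^ 2) ^ s * (a.card ^ 2 * b.card ^ 2) := by
    rw [mul_pow, ← pow_mul, mul_comm s 2, pow_mul]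
    congr 1
    · congr 1
      ring
    · ring
  rw [this, hsq, div_pow, mul_pow]
  field_simp
  ring

theorem inc_lower {N q : ℕ} [Fact q.Prime] {ξ g : ℕ} {FU FV : Finset (Fin N)}
    {a b : Finset (Asg N q)} (ha : Dense ξ FU a) (hb : Dense ξ FV b)
    (hq : (4 * g * ξ) ^ 2 ≤ q) {R : Finset (Pair N)} (hR : R ∈ Mt FUᶜ FVᶜ g) :
    a.card * b.card ≤ 2 * q ^ g * ((a ×ˢ b).filter (IncT R)).card := by
  have hq0 : (0 : ℝ) < q := by
    have := (Fact.out : q.Prime).pos
    positivity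
  unfold Mt at hR
  rw [Finset.mem_filter, Finset.mem_powersetCard] at hR
  obtain ⟨⟨hsub, hcard⟩, hinj1, hinj2⟩ := hR
  set δ : ℝ := Real.sqrt q * ξ / (q : ℝ) ^ 2 with hδ
  have hδ0 : 0 ≤ δ := by positivity
  set AB : ℝ := (a.card : ℝ) * b.card with hAB
  have hAB0 : 0 ≤ AB := by positivity
  -- the contribution of `S`
  have hS : ∀ S ⊆ R, |∑ x ∈ a, ∑ y ∈ b, ∏ p ∈ S, ker (x p.1) (y p.2)| ≤ δ ^ S.card * AB := by
    intro S hSR
    have h1 : ∀ x y : Asg N q, ∏ p ∈ S, ker (x p.1) (y p.2) =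
        ∏ i : Fin S.card, ker (x (S.equivFin.symm i : Pair N).1)
          (y (S.equivFin.symm i : Pair N).2) := by
      intro x y
      rw [← Finset.prod_coe_sort S (fun p => ker (x p.1) (y p.2))]
      exact (Equiv.prod_comp S.equivFin.symm
        (fun p : S => ker (x (p : Pair N).1) (y (p : Pair N).2))).symm
    simp only [h1]
    refine bound_S ha hb (fun i => (S.equivFin.symm i : Pair N).1)
      (fun i => (S.equivFin.symm i : Pair N).2) ?_ ?_ ?_ ?_
    · intro i j hij
      exact S.equivFin.symm.injective (Subtype.ext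
        (hinj1 _ (hSR (S.equivFin.symm i).2) _ (hSR (S.equivFin.symm j).2) hij))
    · intro i j hij
      exact S.equivFin.symm.injective (Subtype.ext
        (hinj2 _ (hSR (S.equivFin.symm i).2) _ (hSR (S.equivFin.symm j).2) hij))
    · intro i
      have := hsub (hSR (S.equivFin.symm i).2)
      rw [Finset.mem_product, Finset.mem_compl, Finset.mem_compl] at this
      exact this.1
    · intro i
      have := hsub (hSR (S.equivFin.symm i).2)
      rw [Finset.mem_product, Finset.mem_compl, Finset.mem_compl] at this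
      exact this.2
  -- the count
  have hcount : (((a ×ˢ b).filter (IncT R)).card : ℝ) =
      ∑ S ∈ R.powerset, (1 / (q : ℝ)) ^ (R \ S).card *
        ∑ x ∈ a, ∑ y ∈ b, ∏ p ∈ S, ker (x p.1) (y p.2) := by
    have h1 : (((a ×ˢ b).filter (IncT R)).card : ℝ) =
        ∑ x ∈ a, ∑ y ∈ b, ∏ p ∈ R, (ker (x p.1) (y p.2) + 1 / (q : ℝ)) := by
      rw [Finset.card_filter, Nat.cast_sum, Finset.sum_product]
      refine Finset.sum_congr rfl fun x _ => Finset.sum_congr rfl fun y _ => ?_
      have : ∀ p : Pair N, ker (x p.1) (y p.2) + 1 / (q : ℝ) =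
          if inc (x p.1) (y p.2) then 1 else 0 := by
        intro p; unfold ker; ring
      simp only [this]
      by_cases hinc : IncT R (x, y)
      · rw [if_pos hinc, Finset.prod_congr rfl fun p hp => if_pos (hinc p hp)]
        simp
      · rw [if_neg hinc]
        unfold IncT at hinc
        push Not at hinc
        obtain ⟨p, hp, hpi⟩ := hinc
        rw [Finset.prod_eq_zero hp (if_neg hpi)]
        simp
    rw [h1]
    simp only [Finset.prod_add, Finset.prod_const, Finset.mul_sum]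
    rw [Finset.sum_congr rfl fun x _ => Finset.sum_comm, Finset.sum_comm]
    refine Finset.sum_congr rfl fun S _ => Finset.sum_congr rfl fun x _ =>
      Finset.sum_congr rfl fun y _ => ?_
    ring
  -- the main term
  have hlow : AB * (2 * (1 / (q : ℝ)) ^ g - (1 / (q : ℝ) + δ) ^ g) ≤
      (((a ×ˢ b).filter (IncT R)).card : ℝ) := by
    rw [hcount]
    have hpow : (1 / (q : ℝ) + δ) ^ g = ∑ S ∈ R.powerset, (1 / (q : ℝ)) ^ (R \ S).card *
        δ ^ S.card := by
      have := Finset.prod_add (fun _ : Pair N => δ) (fun _ => 1 / (q : ℝ)) R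
      simp only [Finset.prod_const, hcard] at this
      rw [add_comm, this]
      refine Finset.sum_congr rfl fun S _ => ?_
      ring
    have hmem : (∅ : Finset (Pair N)) ∈ R.powerset := Finset.empty_mem_powerset R
    have hlow' : ∀ S ∈ R.powerset, (1 / (q : ℝ)) ^ (R \ S).card *
        ((if S = ∅ then 2 else 0) * AB - δ ^ S.card * AB) ≤
        (1 / (q : ℝ)) ^ (R \ S).card * ∑ x ∈ a, ∑ y ∈ b, ∏ p ∈ S, ker (x p.1) (y p.2) := by
      intro S hSR
      refine mul_le_mul_of_nonneg_left ?_ (by positivity)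
      by_cases h0 : S = ∅
      · subst h0
        simp only [if_true, Finset.card_empty, pow_zero, Finset.prod_empty, Finset.sum_const,
          nsmul_eq_mul, mul_one]
        rw [hAB]
        linarith
      · rw [if_neg h0, zero_mul, zero_sub]
        exact (abs_le.mp (hS S (Finset.mem_powerset.mp hSR))).1
    refine le_trans (le_of_eq ?_) (Finset.sum_le_sum hlow')
    rw [hpow]
    have hsplit : ∀ S ∈ R.powerset, (1 / (q : ℝ)) ^ (R \ S).card *
        ((if S = ∅ then 2 else 0) * AB - δ ^ S.card * AB) =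
        (if S = ∅ then 2 * AB * (1 / (q : ℝ)) ^ (R \ S).card else 0) -
          AB * ((1 / (q : ℝ)) ^ (R \ S).card * δ ^ S.card) := by
      intro S _
      split_ifs <;> ring
    rw [Finset.sum_congr rfl hsplit, Finset.sum_sub_distrib, ← Finset.mul_sum,
      Finset.sum_eq_single_of_mem ∅ hmem (fun S _ h0 => if_neg h0), if_pos rfl,
      Finset.sdiff_empty, hcard]
    ring
  -- numbers
  have hqδ : (g : ℝ) * (q * δ) ≤ 1 / 4 := by
    have h1 : (4 * (g : ℝ) * ξ) ^ 2 ≤ q := by exact_mod_cast hq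
    have h2 : 4 * (g : ℝ) * ξ ≤ Real.sqrt q := Real.le_sqrt_of_sq_le h1
    have h3 : Real.sqrt q * Real.sqrt q = q := Real.mul_self_sqrt hq0.le
    have h4 : 0 < Real.sqrt q := Real.sqrt_pos.mpr hq0
    have h5 : (q : ℝ) * δ = ξ / Real.sqrt q := by
      rw [hδ]
      field_simp
      rw [sq, h3]
    rw [h5, mul_div_assoc', div_le_iff₀ h4]
    linarith
  have hexp : (1 + (q : ℝ) * δ) ^ g ≤ 3 / 2 := by
    have h1 : (1 + (q : ℝ) * δ) ^ g ≤ Real.exp ((q : ℝ) * δ) ^ g := by
      refine pow_le_pow_left₀ (by positivity) ?_ g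
      rw [add_comm]
      exact Real.add_one_le_exp _
    have h2 : Real.exp ((q : ℝ) * δ) ^ g = Real.exp ((g : ℝ) * (q * δ)) := by
      exact (Real.exp_nat_mul ((q : ℝ) * δ) g).symm
    have h3 : Real.exp ((g : ℝ) * (q * δ)) ≤ Real.exp (1 / 4) := Real.exp_le_exp.mpr hqδ
    have h4 : Real.exp (1 / 4) ≤ 3 / 2 := by
      have h5 : (-(1 / 4 : ℝ)) + 1 ≤ Real.exp (-(1 / 4)) := Real.add_one_le_exp _
      rw [Real.exp_neg] at h5
      have h6 : 0 < Real.exp (1 / 4) := Real.exp_pos _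
      have h7 : (3 / 4 : ℝ) * Real.exp (1 / 4) ≤ 1 := by
        calc (3 / 4 : ℝ) * Real.exp (1 / 4) ≤ (Real.exp (1 / 4))⁻¹ * Real.exp (1 / 4) :=
              mul_le_mul_of_nonneg_right (by linarith) h6.le
          _ = 1 := inv_mul_cancel₀ h6.ne'
      linarith
    linarith
  have hfin : (1 / (q : ℝ) + δ) ^ g ≤ 3 / 2 * (1 / (q : ℝ)) ^ g := by
    have : 1 / (q : ℝ) + δ = (1 + q * δ) * (1 / (q : ℝ)) := by
      field_simp
    rw [this, mul_pow]
    exact mul_le_mul_of_nonneg_right hexp (by positivity)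
  have hfin2 : AB * (1 / 2 * (1 / (q : ℝ)) ^ g) ≤ (((a ×ˢ b).filter (IncT R)).card : ℝ) :=
    le_trans (mul_le_mul_of_nonneg_left (by linarith) hAB0) hlow
  have hqg : (0 : ℝ) < (q : ℝ) ^ g := by positivity
  have hreal : (a.card : ℝ) * b.card ≤
      2 * (q : ℝ) ^ g * (((a ×ˢ b).filter (IncT R)).card : ℝ) := by
    have := mul_le_mul_of_nonneg_left hfin2 (show (0 : ℝ) ≤ 2 * (q : ℝ) ^ g by positivity)
    refine le_trans (le_of_eq ?_) this
    rw [hAB, one_div_pow]
    field_simp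
  exact_mod_cast hreal

end

end Pool.Agent.helper3.BP
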